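import Mathlib
import Pool.Agent.H54.Mod5

namespace Pool.Agent.Results.MP_1a3e71_nt.Int

open Nat Finset Pool.Agent.H54.SuperCat

/-- `c_j = (6j)!/((3j)! (j!)^3)` -/
def c (j : ℕ) : ℚ := ((6 * j)! : ℚ) / (((3 * j)! : ℚ) * (j ! : ℚ) ^ 3)

/-- the sum `S_n` -/
def S (n : ℕ) : ℚ := ∑ j ∈ range n, (154 * j + 15) * c j * (-32768) ^ (n - 1 - j)

/-- the normalised sum `a_n` -/
def a (n : ℕ) : ℚ := S n / (10 * n * (2 * n + 1) * ((2 * n).choose n : ℚ))

def W (t n : ℕ) : ℚ := 64 * n * h n ^ 2 * hz (2 * t) n / ((-2) ^ n * 4 ^ t * t ! ^ 2 * n !)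
def V (t n : ℕ) : ℚ := 128 * t ^ 2 * h n ^ 2 * hz (2 * t) (n + 1) / ((-2) ^ n * 4 ^ t * t ! ^ 2 * n !)

lemma cl (t n : ℕ) : W t (n + 1) - W t n = V (t + 1) n - V t n := by
  simp only [W, V, show 2 * (t + 1) = 2 * t + 1 + 1 by ring]
  rw [← hz_ss (2 * t) n]
  simp only [hz_s, factorial_succ, h.eq_2, pow_succ]
  push_cast
  field_simp
  ring

lemma UB (t n : ℕ) : ∑ i ∈ range t, W i (n + 1) = ∑ i ∈ range t, W i n + V t n := by
  induction t with
  | zero => simp [V]
  | succ t ih => rw [sum_range_succ, ih, sum_range_succ]; linarith [cl t n]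

lemma dg (n : ℕ) : V (2 * n) n + W (2 * n) (n + 1) + W (2 * n + 1) (n + 1) =
    (154 * n + 15) * c n / (-32768) ^ n := by
  have e : c n = h (3 * n) * h n ^ 2 * 1024 ^ n / ((2 * n)! ^ 2 * n !) := by
    rw [c, h_eq, h_eq, show 2 * (3 * n) = 6 * n by ring, show (1024 : ℚ) = 4 ^ 5 by norm_num, ← pow_mul]
    field_simp
    ring
  rw [e, ← hz_add n (3 * n), ← hz_ss, show n + 3 * n = 2 * (2 * n) by ring,
    show (-32768 : ℚ) = 1024 * (-2) * (4 * 4) by norm_num]
  simp only [W, V, show 2 * (2 * n + 1) = 2 * (2 * n) + 1 + 1 by ring, hz_s, factorial_succ, h.eq_2, pow_succ,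
    mul_pow]
  push_cast
  field_simp
  ring

lemma psi (n : ℕ) : ∑ t ∈ range (2 * n), W t n = ∑ k ∈ range n, (154 * k + 15) * c k / (-32768) ^ k := by
  induction n with
  | zero => rfl
  | succ n ih =>
    rw [show 2 * (n + 1) = 2 * n + 1 + 1 by ring, sum_range_succ, sum_range_succ, UB, ih, sum_range_succ, ← dg]
    ring

lemma S_eq (n : ℕ) : S (n + 1) = (-32768) ^ n * ∑ k ∈ range (n + 1), (154 * k + 15) * c k / (-32768) ^ k := by
  rw [S, mul_sum]
  refine sum_congr rfl fun k hk => ?_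
  obtain ⟨e, rfl⟩ := Nat.exists_eq_add_of_le (Nat.lt_succ_iff.1 (mem_range.1 hk))
  rw [show k + e + 1 - 1 - k = e by omega, pow_add]
  field_simp

def sg (n t : ℕ) : ℚ := 16 ^ t * h n * hz (2 * t) n / t ! ^ 2
def tau (n t : ℕ) : ℚ := 4096 ^ n / (512 * 64 ^ t) * sg n t
def D (n : ℕ) : ℚ := S n / (n * ((2 * n).choose n : ℚ))
def e (n : ℕ) : ℚ := (6 * n)! / ((3 * n)! * n ! * (2 * n)!)

lemma sgint (n t : ℕ) : ∃ z : ℤ, sg n t = z := by
  obtain ⟨x, hx⟩ := sz n (2 * t)
  obtain ⟨y, hy⟩ := bin t t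
  refine ⟨x * y, ?_⟩
  push_cast
  rw [← hx, ← hy, sg, ← two_mul, pow_mul]
  field_simp
  norm_num
  ring

lemma D_eq (n : ℕ) : D n = -∑ t ∈ range (2 * n), tau n t := by
  cases n with
  | zero => simp [D]
  | succ n =>
    have := h_pos (n + 1)
    rw [D, S_eq, ← psi, mul_sum, sum_div, ← sum_neg_distrib, cb]
    refine sum_congr rfl fun t _ => ?_
    simp only [W, tau, sg, show (-32768 : ℚ) = 4096 * (-2) * 4 by norm_num,
      show (64 : ℚ) ^ t = 16 ^ t * 4 ^ t by rw [← mul_pow]; norm_num, mul_pow, pow_succ]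
    push_cast
    field_simp
    ring

lemma rc (n : ℕ) : 2 * (2 * n + 1) * D (n + 1) = -32768 * n * D n + (154 * n + 15) * e n := by
  have hC : ((2 * (n + 1)).choose (n + 1) : ℚ) = 2 * (2 * n + 1) * ((2 * n).choose n : ℚ) / (n + 1) := by
    rw [cb, cb, h.eq_2 n, factorial_succ n]
    push_cast
    field_simp
    ring
  have hp : (0 : ℚ) < (2 * n).choose n := by exact_mod_cast Nat.choose_pos (by omega)
  have he : e n = c n / ((2 * n).choose n : ℚ) := by
    rw [e, c, Nat.cast_choose ℚ (by omega), show 2 * n - n = n by omega]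
    field_simp
  cases n with
  | zero => norm_num [D, S, e, c]
  | succ n =>
    rw [D, D, hC, he, S_eq, S_eq, sum_range_succ _ (n + 1), pow_succ]
    push_cast
    field_simp
    ring

lemma Jint (n : ℕ) : ∃ z : ℤ, D (n + 2) = 2 * z := by
  obtain ⟨z, hz'⟩ := sum_int (n := 2 * (n + 2)) (f := fun t => -tau (n + 2) t / 2) fun t ht => by
    obtain ⟨y, hy⟩ := sgint (n + 2) t
    rcases (show t = 2 * n + 3 ∨ t ≤ 2 * n + 2 by omega) with rfl | ht
    · have dd : ∀ m, ∃ z : ℤ, 2 ^ m * h m = (2 * z + 1 : ℤ) := by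
        intro m
        induction m with
        | zero => exact ⟨0, by simp [h]⟩
        | succ m ih =>
          obtain ⟨z, hz⟩ := ih
          refine ⟨2 * z * m + z + m, ?_⟩
          push_cast at hz ⊢
          rw [h, pow_succ]
          linear_combination (2 * (m : ℚ) + 1) * hz
      obtain ⟨u, hu⟩ := dd (2 * n + 3)
      obtain ⟨v, hv⟩ := dd (n + 2)
      obtain ⟨w, hw⟩ := dd (3 * n + 4)
      obtain ⟨x, hx⟩ := sc4 n 0 (2 * n + 3) (by omega)
      obtain ⟨z, hz⟩ := int_of_coprime (q := sg (n + 2) (2 * n + 3) / 16) (a := (2 * u + 1) ^ 2) (b := 2 ^ 4)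
        (x := x ^ 2 * (2 * v + 1) * (2 * w + 1)) (y := y) (IsCoprime.pow ⟨1, -u, by ring⟩)
        (by
          rw [Int.cast_mul, Int.cast_mul, Int.cast_pow, Int.cast_pow, ← hu, ← hv, ← hw,
            show (x : ℚ) = 4 ^ (2 * n + 3) * h (2 * n + 3) / (2 * n + 3)! / 4 by
              rw [zero_add, h.eq_1, mul_one] at hx; rw [hx]; ring,
            sg, show 2 * (2 * n + 3) = n + 2 + (3 * n + 4) by ring, hz_add, show (16 : ℚ) = 2 ^ 4 by norm_num,
            show (4 : ℚ) = 2 ^ 2 by norm_num, ← pow_mul, ← pow_mul]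
          field_simp
          ring)
        (by rw [hy]; push_cast; ring)
      refine ⟨-z, ?_⟩
      push_cast
      rw [← hz, tau, show (4096 : ℚ) = 64 ^ 2 by norm_num, ← pow_mul]
      field_simp
      ring
    · obtain ⟨d, hd⟩ := Nat.exists_eq_add_of_le ht
      refine ⟨-(4 * 64 ^ d * y), ?_⟩
      push_cast
      rw [tau, hy, show (4096 : ℚ) = 64 ^ 2 by norm_num, ← pow_mul, show 2 * (n + 2) = t + d + 2 by omega]
      field_simp
      ring
  exact ⟨z, by rw [D_eq, ← hz', mul_sum, ← sum_neg_distrib]; exact sum_congr rfl fun t _ => by ring⟩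

lemma eint (n : ℕ) : ∃ d : ℕ, (6 * n)! = (3 * n)! * n ! * (2 * n + 1)! * d ∧ e n = (2 * n + 1) * d := by
  obtain ⟨d, hd⟩ := dint n
  refine ⟨d, hd, ?_⟩
  rw [e, hd, factorial_succ]
  push_cast
  field_simp

lemma nz {n : ℕ} (hn : n % 5 ≠ 0) : (n : ZMod 5) ≠ 0 := fun h => hn (by
  rw [ZMod.natCast_eq_zero_iff] at h; omega)

lemma e5 (n : ℕ) (hn : n % 5 ≠ 0) : E (e n) 0 := by
  induction n with
  | zero => omega
  | succ n ih =>
    have e1 : e (n + 1) = e n * (((12 * (6 * n + 1) * (6 * n + 5) : ℤ) : ℚ) / (((n + 1) ^ 2 : ℤ) : ℚ)) := by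
      simp only [e, show 6 * (n + 1) = 6 * n + 1 + 1 + 1 + 1 + 1 + 1 by ring,
        show 3 * (n + 1) = 3 * n + 1 + 1 + 1 by ring, show 2 * (n + 1) = 2 * n + 1 + 1 by ring, factorial_succ]
      push_cast
      field_simp
      ring
    have h0 : (((n + 1) ^ 2 : ℤ) : ZMod 5) ≠ 0 := by
      have := nz hn
      push_cast at this ⊢
      exact pow_ne_zero _ this
    by_cases h : n % 5 = 0
    · obtain ⟨d, -, hd⟩ := eint n
      obtain ⟨m, rfl⟩ : ∃ m, n = 5 * m := ⟨n / 5, by omega⟩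
      refine (((E.int ((2 * (5 * m : ℕ) + 1) * d)).of_eq (r := e (5 * m)) (by rw [hd]; push_cast; rfl) rfl).mul
        (E.frac (s := 0) h0 ?_)).of_eq e1 (by simp)
      push_cast
      generalize (m : ZMod 5) = x
      revert x
      decide
    · exact ((ih h).mul (E.frac h0 (div_mul_cancel₀ _ h0).symm)).of_eq e1 (by simp)

lemma eE (n : ℕ) : E ((154 * n + 15) * e n) 0 := by
  by_cases h : n % 5 = 0
  · obtain ⟨d, -, hd⟩ := eint n
    obtain ⟨m, rfl⟩ : ∃ m, n = 5 * m := ⟨n / 5, by omega⟩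
    refine (E.int (5 * ((154 * m + 3) * (10 * m + 1) * d))).of_eq (by rw [hd]; push_cast; ring) ?_
    push_cast
    rw [show (5 : ZMod 5) = 0 from rfl, zero_mul]
  · exact ((E.int (154 * n + 15)).mul (e5 n h)).of_eq (by push_cast; rfl) (by simp)

lemma down (n : ℕ) (hn : n % 5 ≠ 0) (h : E (2 * (2 * n + 1) * D (n + 1)) 0) : E (D n) 0 := by
  have h0 : ((32768 * n : ℤ) : ZMod 5) ≠ 0 := by
    push_cast
    exact mul_ne_zero (by decide) (nz hn)
  have : (n : ℚ) ≠ 0 := by exact_mod_cast fun h => hn (by simp [h])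
  refine (((eE n).add ((E.int (-1)).mul h)).mul (E.frac (a := 1) h0 (div_mul_cancel₀ _ h0).symm)).of_eq ?_
    (by simp)
  rw [rc]
  push_cast
  field_simp
  ring

lemma tau_s (n t : ℕ) : tau n (t + 1) = tau n t *
    ((((4 * t - 2 * n + 1) * (4 * t - 2 * n + 3) : ℤ) : ℚ) / ((16 * (t + 1) ^ 2 : ℤ) : ℚ)) := by
  simp only [tau, sg, show 2 * (t + 1) = 2 * t + 1 + 1 by ring, hz_s, factorial_succ, pow_succ]
  push_cast
  field_simp
  ring

lemma rho (m i r : ℕ) (s : ZMod 5) (h1 : (16 * (r + 1) ^ 2 : ZMod 5) ≠ 0)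
    (h2 : (4 * r + 1) * (4 * r + 3) = s * (16 * (r + 1) ^ 2)) :
    ∃ q, E q s ∧ tau (5 * m) (5 * i + r + 1) = tau (5 * m) (5 * i + r) * q := by
  refine ⟨_, E.frac ?_ ?_, tau_s _ _⟩ <;> push_cast <;> rw [show (5 : ZMod 5) = 0 from rfl] <;>
    simp only [zero_mul, zero_add, mul_zero, sub_zero] <;> assumption

lemma scale (m : ℕ) (hm : E (D m) 0) : E (D (5 * m)) 0 := by
  have B : ∀ K, ∑ t ∈ range (5 * K), tau (5 * m) t = ∑ i ∈ range K, (tau (5 * m) (5 * i + 0) +
      tau (5 * m) (5 * i + 1) + tau (5 * m) (5 * i + 2) + tau (5 * m) (5 * i + 3) + tau (5 * m) (5 * i + 4)) := by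
    intro K
    induction K with
    | zero => rfl
    | succ K ih =>
      rw [show 5 * (K + 1) = 5 * K + 1 + 1 + 1 + 1 + 1 by ring]
      simp only [sum_range_succ]
      rw [ih]
      simp only [add_assoc, add_zero]
  have key := E.sum (n := 2 * m) (f := fun i => tau (5 * m) (5 * i + 0) + tau (5 * m) (5 * i + 1) +
      tau (5 * m) (5 * i + 2) + tau (5 * m) (5 * i + 3) + tau (5 * m) (5 * i + 4) + tau m i) fun i _ => by
    obtain ⟨q0, e0, f0⟩ := rho m i 0 3 (by decide) (by decide)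
    obtain ⟨q1, e1, f1⟩ := rho m i 1 0 (by decide) (by decide)
    obtain ⟨q2, e2, f2⟩ := rho m i 2 1 (by decide) (by decide)
    obtain ⟨q3, e3, f3⟩ := rho m i 3 0 (by decide) (by decide)
    obtain ⟨r1, g1, k1⟩ := hz5 m 0
    obtain ⟨r2, g2, k2⟩ := hz5 (2 * i) m
    obtain ⟨r3, g3, k3⟩ := fac5 i
    obtain ⟨y, hy⟩ := sgint m i
    have one := (E.int 1).of_eq Int.cast_one.symm Int.cast_one.symm
    have s3 : ((-1 : ZMod 5) ^ i) * (-1) ^ i = 1 := by rw [← mul_pow]; simp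
    have g4 := g3.inv s3
    have p1 : E ((4096 : ℚ) ^ m) 1 := ((E.int 4096).of_eq (by norm_num) (by decide)).pow1 m
    have p2 : E ((1 / 256 : ℚ) ^ i) 1 :=
      ((E.frac (a := 1) (b := 256) (by decide) (by decide)).of_eq (by norm_num) rfl).pow1 i
    have p3 : E ((1 / 64 : ℚ) ^ i) ((-1) ^ i) := by
      induction i with
      | zero => simpa using one
      | succ i _ =>
        have : ∀ j : ℕ, E ((1 / 64 : ℚ) ^ j) ((-1) ^ j) := fun j => by
          induction j with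
          | zero => simpa using one
          | succ j ih =>
            exact (ih.mul ((E.frac (a := 1) (b := 64) (s := -1) (by decide) (by decide)).of_eq
              (r := 1 / 64) (by norm_num) rfl)).of_eq (pow_succ _ _) (pow_succ _ _)
        exact this _
    have t0 : E (tau m i) (1 * (3 * (-1) ^ i) * y) :=
      ((p1.mul ((E.frac (a := 1) (b := 512) (s := 3) (by decide) (by decide)).mul p3)).mul (E.int y)).of_eq
        (by rw [tau, hy, one_div, inv_pow]; push_cast; field_simp) rfl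
    have r0 : r3 ≠ 0 := fun h => by
      rw [h, zero_mul, zero_mul] at k3
      exact absurd k3 (by positivity)
    have t1 : tau (5 * m) (5 * i + 0) = tau m i * ((4096 ^ m) ^ 4 * (1 / 256) ^ i * r1 * r2 * r3⁻¹ * r3⁻¹) := by
      simp only [hz, pow_zero, mul_one] at k1
      rw [tau, tau, sg, sg, add_zero, k1, k3, show 2 * (5 * i) = 5 * (2 * i) by ring,
        show hz (5 * (2 * i)) (5 * m) = r2 * 5 ^ (2 * i) * hz (2 * i) m / 5 ^ m by rw [← k2]; field_simp,
        one_div, inv_pow, show (256 : ℚ) = 4 ^ 4 by norm_num, show (64 : ℚ) = 16 * 4 by norm_num]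
      simp only [mul_pow, ← pow_mul]
      field_simp
      ring
    refine (t0.mul ((((((((p1.pow1 4).mul p2).mul g1).mul g2).mul g4).mul g4).mul
      (one.add (e0.mul (one.add (e1.mul (one.add (e2.mul (one.add e3)))))))).add one)).of_eq ?_ ?_
    · rw [f3, f2, f1, f0, t1]; ring
    · have s1 : ((-1 : ZMod 5) ^ m) * (-1) ^ m = 1 := by rw [← mul_pow]; simp
      have : (1 * 1 * (-1 : ZMod 5) ^ (m + 0) * (-1) ^ (2 * i + m) * (-1) ^ i * (-1) ^ i) = 1 := by
        rw [pow_add _ (2 * i), pow_mul, add_zero, neg_one_sq, one_pow]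
        linear_combination ((-1 : ZMod 5) ^ i * (-1) ^ i) * s1 + s3
      rw [this, show (1 * (1 + 3 * (1 + 0 * (1 + 1 * (1 + 0)))) + 1 : ZMod 5) = 0 by decide, mul_zero]
  refine (((E.int (-1)).mul key).add ((E.int (-1)).mul hm)).of_eq ?_ (by simp)
  rw [D_eq, D_eq, show 2 * (5 * m) = 5 * (2 * m) by ring, B, sum_add_distrib (g := tau m)]
  push_cast
  ring

lemma D5 (n : ℕ) : E (D n) 0 := by
  have two : ∀ n, n % 5 = 2 → E (D n) 0 := fun n hn => down n (by omega) (by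
    obtain ⟨m, rfl⟩ : ∃ m, n = 5 * m + 2 := ⟨n / 5, by omega⟩
    obtain ⟨z, hz⟩ := Jint (5 * m + 1)
    refine (E.int (5 * (4 * (2 * m + 1) * z))).of_eq (by rw [hz]; push_cast; ring) ?_
    push_cast
    rw [show (5 : ZMod 5) = 0 from rfl, zero_mul])
  have dn : ∀ n, n % 5 ≠ 0 → E (D (n + 1)) 0 → E (D n) 0 := fun n hn h => down n hn
    (((E.int (2 * (2 * n + 1))).mul h).of_eq (by push_cast; rfl) (by simp))
  induction n using Nat.strong_induction_on with
  | _ n ih =>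
    rcases (show n = 0 ∨ (n % 5 = 0 ∧ 0 < n) ∨ n % 5 = 1 ∨ n % 5 = 2 ∨ n % 5 = 3 ∨ n % 5 = 4 by omega)
      with rfl | h | h | h | h | h
    · exact (E.int 0).of_eq (by simp [D]) (by simp)
    · have := scale _ (ih (n / 5) (by omega))
      rwa [show 5 * (n / 5) = n by omega] at this
    · exact dn n (by omega) (two _ (by omega))
    · exact two n h
    · have := scale _ (ih (n / 5 + 1) (by omega))
      rw [show 5 * (n / 5 + 1) = n + 1 + 1 by omega] at this
      exact dn n (by omega) (dn _ (by omega) this)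
    · have := scale _ (ih (n / 5 + 1) (by omega))
      rw [show 5 * (n / 5 + 1) = n + 1 by omega] at this
      exact dn n (by omega) this

lemma sgn (n : ℕ) : 0 < (-1) ^ n * a (n + 1) := by
  have cp : ∀ k, 0 < c k := fun k => by unfold c; positivity
  have := alt_pos (t := fun k => (154 * k + 15) * c k) (c := 32768) (by norm_num)
    (fun k => by have := cp k; positivity) (by norm_num [c, factorial]) (fun k hk => by
      have e1 : c (k + 1) = c k * (24 * (6 * k + 1) * (2 * k + 1) * (6 * k + 5) / (k + 1) ^ 3) := by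
        simp only [c, show 6 * (k + 1) = 6 * k + 1 + 1 + 1 + 1 + 1 + 1 by ring,
          show 3 * (k + 1) = 3 * k + 1 + 1 + 1 by ring, factorial_succ]
        push_cast
        field_simp
        ring
      have h0 : (0 : ℚ) ≤ k := by positivity
      have h1 : (1 : ℚ) ≤ k := by exact_mod_cast hk
      have e2 : 24 * (6 * k + 1) * (2 * k + 1) * (6 * k + 5) / (k + 1 : ℚ) ^ 3 ≤ 1728 := by
        rw [div_le_iff₀ (by positivity)]
        nlinarith [mul_nonneg h0 h0]
      have e3 := mul_le_mul_of_nonneg_left e2 (cp k).le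
      push_cast
      rw [e1]
      nlinarith [cp k, mul_nonneg h0 (cp k).le]) n
  have hp : (0 : ℚ) < (2 * (n + 1)).choose (n + 1) := by exact_mod_cast Nat.choose_pos (by omega)
  rw [a, S_eq, ← mul_div_assoc, ← mul_assoc, ← mul_pow]
  norm_num at this ⊢
  positivity

lemma main (m : ℕ) : ∃ b : ℤ, 5 * a (m + 2) = b ∧ (5 ∣ b ↔ ¬ ∃ k, 2 * (m + 2) + 1 = 5 ^ k) := by
  obtain ⟨x, hx⟩ := Jint m
  obtain ⟨y, hy⟩ := Jint (m + 1)
  obtain ⟨N, hN⟩ : ∃ N, N = m + 2 := ⟨_, rfl⟩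
  rw [show m + 1 + 2 = N + 1 by omega] at hy
  rw [← hN] at hx ⊢
  obtain ⟨d, hd, he⟩ := eint N
  have x5 : 5 ∣ 2 * x := E.dvd ((D5 N).of_eq (by rw [hx]; push_cast; rfl) rfl)
  have y5 : 5 ∣ 2 * y := E.dvd ((D5 (N + 1)).of_eq (by rw [hy]; push_cast; rfl) rfl)
  have hp : (0 : ℚ) < (2 * N).choose N := by exact_mod_cast Nat.choose_pos (by omega)
  have hNp : (0 : ℚ) < N := by rw [hN]; positivity
  have I : (2 * N + 1) * (5 * a N) = x := by
    rw [D, div_eq_iff (by positivity)] at hx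
    rw [a, hx]
    field_simp
    ring
  have II : 65536 * N * (5 * a N) = (154 * N + 15) * d - 4 * y := by
    have := rc N
    rw [hx, hy, he, ← I] at this
    apply mul_left_cancel₀ (show (2 * N + 1 : ℚ) ≠ 0 by positivity)
    linear_combination this
  obtain ⟨b, hb⟩ := int_of_coprime (q := 5 * a N) (a := 2 * N + 1) (b := 2 ^ 15 * (2 * N))
    (x := x) (y := (154 * N + 15) * d - 4 * y)
    (IsCoprime.mul_right (IsCoprime.pow_right ⟨1, -(N : ℤ), by ring⟩) ⟨1, -1, by ring⟩)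
    (by push_cast; linear_combination I) (by push_cast; linear_combination II)
  refine ⟨b, hb, ?_⟩
  rw [hb] at I II
  have I' : (2 * N + 1) * b = x := by exact_mod_cast I
  have II' : 65536 * N * b = (154 * N + 15) * d - 4 * y := by exact_mod_cast II
  by_cases h : N % 5 = 2
  · obtain ⟨k, hk⟩ : ∃ k, N = 5 * k + 2 := ⟨N / 5, by omega⟩
    have d0 : d ≠ 0 := fun h => factorial_ne_zero _ (by rw [hd, h, mul_zero])
    have v := congrArg (padicValNat 5) hd
    rw [padicValNat.mul (by positivity) d0, padicValNat.mul (by positivity) (by positivity),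
      padicValNat.mul (by positivity) (by positivity), ← L5, ← L5, ← L5, ← L5, L5q (6 * N) (6 * k + 2) (by omega),
      L5q (3 * N) (3 * k + 1) (by omega), L5q N k (by omega), L5q (2 * N + 1) (2 * k + 1) (by omega)] at v
    have p : (∃ j, 2 * N + 1 = 5 ^ j) ↔ ∃ j, 2 * k + 1 = 5 ^ j := by
      refine ⟨fun ⟨j, hj⟩ => ?_, fun ⟨j, hj⟩ => ⟨j + 1, by rw [pow_succ]; omega⟩⟩
      cases j with
      | zero => omega
      | succ j => exact ⟨j, by rw [pow_succ] at hj; omega⟩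
    have q : 5 ∣ d ↔ 1 ≤ padicValNat 5 d :=
      ⟨one_le_padicValNat_of_dvd d0, dvd_of_one_le_padicValNat⟩
    rw [p, ← phi5]
    rw [hk] at II'
    push_cast at II'
    have : 2 * b + 2 * d = 5 * ((154 * k + 65) * d - 65536 * k * b - 26214 * b) - 4 * y := by
      linear_combination II'
    omega
  · refine iff_of_true ?_ fun ⟨k, hk⟩ => ?_
    · have : (5 : ℤ) ∣ (2 * N + 1) * b := by rw [I']; omega
      exact ((Nat.prime_iff_prime_int.1 Nat.prime_five).dvd_mul.1 this).resolve_left (by omega)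
    · cases k with
      | zero => omega
      | succ k => rw [pow_succ] at hk; omega

theorem result (n : ℕ) (hn : 1 < n) :
    ((¬ ∃ m : ℕ, 1 ≤ m ∧ 2 * n + 1 = 5 ^ m) → ∃ z : ℤ, 0 < z ∧ (-1) ^ (n - 1) * a n = z) ∧
    ((∃ m : ℕ, 1 ≤ m ∧ 2 * n + 1 = 5 ^ m) → ∃ z : ℤ, 5 * a n = z ∧ ¬ 5 ∣ z) := by
  obtain ⟨n, rfl⟩ : ∃ m, n = m + 2 := ⟨n - 2, by omega⟩
  obtain ⟨b, h1, h2⟩ := main n
  refine ⟨fun h => ?_, fun ⟨m, _, hm⟩ => ⟨b, h1, fun h => h2.1 h ⟨m, hm⟩⟩⟩
  obtain ⟨c, rfl⟩ := h2.2 fun ⟨m, hm⟩ => h ⟨m, by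
    rcases m with _ | m
    · omega
    · omega, hm⟩
  have e1 : (-1) ^ (n + 1) * a (n + 2) = (((-1) ^ (n + 1) * c : ℤ) : ℚ) := by
    push_cast at h1 ⊢
    rw [show a (n + 2) = c by linarith]
  exact ⟨_, by have := sgn (n + 1); rw [e1] at this; exact_mod_cast this, e1⟩

end Pool.Agent.Results.MP_1a3e71_nt.Int
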